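import Pool.Agent.H37.CTN.Stmts2

/-!
# Row HC5 of board ctn: the quotients of `SL_n(q)`, `n ≥ 3`, are groups of covers
-/

set_option autoImplicit false

namespace Pool.CND

open Finset

private theorem hc5_emb (p : ℕ) (k F : Type) [Field k] [IsAlgClosed k] [Field F] (f q : ℕ)
    (hp : p.Prime) (hcp : CharP k p) (hf : 1 ≤ f) (hq : q = p ^ f) (hF : Nat.card F = q) :
    Nonempty (F →+* k) := by
  have hq2 : 2 ≤ q := by
    rw [hq]
    exact le_trans hp.two_le (Nat.le_self_pow (by omega) p)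
  have : Finite F := Nat.finite_of_card_ne_zero (by omega)
  have : Fintype F := Fintype.ofFinite F
  have : Fact p.Prime := ⟨hp⟩
  obtain ⟨r, hr⟩ := CharP.exists F
  obtain ⟨n, hrp, hn⟩ := FiniteField.card F r
  have hrp2 : r = p := by
    rw [← Nat.card_eq_fintype_card, hF, hq] at hn
    have h1 : r ∣ p ^ f := by
      rw [hn]
      exact dvd_pow_self r n.ne_zero
    exact (Nat.prime_dvd_prime_iff_eq hrp hp).1 (hrp.dvd_of_dvd_pow h1)
  have : CharP F p := by rw [← hrp2]; exact hr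
  let : Algebra (ZMod p) F := ZMod.algebra F p
  let : Algebra (ZMod p) k := ZMod.algebra k p
  exact ⟨(IsAlgClosed.lift (R := ZMod p) (S := F) (M := k)).toRingHom⟩

theorem hc5_thm (h1 : S_NC1) (h2 : S_QU1) : S_HC5 := by
  intro p k F _ _ _ f q n hp hch hf hq hF hn C _
  obtain ⟨r, rfl⟩ : ∃ r, n = r + 2 + 1 := ⟨n - 3, by omega⟩
  have hq2 : 2 ≤ q := by
    rw [hq]
    exact le_trans hp.two_le (Nat.le_self_pow (by omega) p)
  have : Finite F := Nat.finite_of_card_ne_zero (by omega)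
  have : Finite (Matrix.SpecialLinearGroup (Fin (r + 2 + 1)) F) := inferInstance
  obtain ⟨φ⟩ := hc5_emb p k F f q hp hch hf hq hF
  let : Algebra F k := φ.toAlgebra
  obtain ⟨L, iL, iA, ρ, t, hcov, _⟩ := h1 p k F f q r 2 hp hch hf hq hF (Or.inl le_rfl)
  obtain ⟨E, ρ', t', _, _, _, hcov'⟩ :=
    h2 k L (Matrix.SpecialLinearGroup (Fin (r + 2 + 1)) F) ρ t C hcov
  exact ⟨E, inferInstance, inferInstance, ρ', t', hcov'⟩

end Pool.CND
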